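import Mathlib
import Pool.Agent.TH461.FGK.TrCov

/-!
# Covering numbers of the extreme tracial states of `C*(ℤ² ⋉ ℤ[1/6])`

Let `G` be the group generated by `x ↦ 2 x`, `x ↦ 3 x`, `x ↦ x + 1` on `ℚ`, a copy of
`ℤ² ⋉ ℤ[1/6]`.  The tracial states of `C*(G)` are the normalised positive definite class functions
`φ` on `G`.  In the GNS space of `φ` the vectors of `g, h ∈ G` are at distance
`(2 - 2 Re φ (h⁻¹ g)) ^ (1/2)`.  For an extreme `φ` the conjugates `u ^ (2 ^ i 3 ^ j)` of the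
translation `u` by `1` either give finitely many vectors, exactly when `φ` is conditionally
finite-dimensional, or have covering numbers growing faster than every power of `1/ε`.
-/

set_option autoImplicit false

open scoped ComplexOrder

namespace Pool.Agent.Results.MP_81910f_an.CoveringDichotomy

/-- **Covering numbers of the extreme tracial states of `C*(ℤ² ⋉ ℤ[1/6])`.**
For an extreme tracial state `φ` the following are equivalent: `φ` is conditionally
finite-dimensional (its translates by the translations span a finite-dimensional space); the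
vectors of `u ^ (2 ^ i 3 ^ j)`, `i, j ≥ 0`, in the GNS space of `φ` are finite in number (each is
at distance `0` from that of some `u ^ m`, `m ∈ S`, for a finite set `S`); for some `C` and some
`D > 0`, for all `0 < ε ≤ 1`, these vectors are covered by at most `C ε ^ (-D)` balls of radius `ε`
centred at vectors of powers of `u`. -/
theorem result (s2 s3 t : Equiv.Perm ℚ) (h2 : ∀ x : ℚ, s2 x = 2 * x) (h3 : ∀ x : ℚ, s3 x = 3 * x)
    (ht : ∀ x : ℚ, t x = x + 1) (G : Subgroup (Equiv.Perm ℚ))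
    (hG : G = Subgroup.closure {s2, s3, t}) (u : G)
    (hu : ∀ x : ℚ, (u : Equiv.Perm ℚ) x = x + 1) (φ : G → ℂ)
    (hφ : φ ∈ Set.extremePoints ℝ {ψ : G → ℂ | ψ 1 = 1 ∧ (∀ g h : G, ψ (h * g * h⁻¹) = ψ g) ∧
      ∀ (s : Finset G) (c : G → ℂ), 0 ≤ ∑ i ∈ s, ∑ j ∈ s, star (c j) * c i * ψ (j⁻¹ * i)}) :
    List.TFAE [
      FiniteDimensional ℂ (Submodule.span ℂ {F : G → ℂ | ∃ n : G,
        (∃ r : ℚ, ∀ x : ℚ, (n : Equiv.Perm ℚ) x = x + r) ∧ F = fun x => φ (n * x)}),
      ∃ S : Finset ℤ, ∀ i j : ℕ, ∃ m ∈ S, φ (u ^ ((2 : ℤ) ^ i * 3 ^ j - m)) = 1,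
      ∃ C D : ℝ, 0 < D ∧ ∀ ε : ℝ, 0 < ε → ε ≤ 1 → ∃ S : Finset ℤ, (S.card : ℝ) ≤ C * ε ^ (-D) ∧
        ∀ i j : ℕ, ∃ m ∈ S, 2 - 2 * (φ (u ^ ((2 : ℤ) ^ i * 3 ^ j - m))).re ≤ ε ^ 2] :=
  Pool.Agent.TH461.FGK.extreme_cov s2 s3 t h2 h3 ht G hG u hu φ hφ

end Pool.Agent.Results.MP_81910f_an.CoveringDichotomy
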