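import Mathlib
import Pool.Agent.TH461.FGK.Tr

/-!
# Almost periods of the extreme tracial states of `C*(ℤ² ⋉ ℤ[1/6])`

Let `G` be the group generated by `x ↦ 2 x`, `x ↦ 3 x`, `x ↦ x + 1` on `ℚ`, a copy of
`ℤ² ⋉ ℤ[1/6]`.  The tracial states of `C*(G)` are the normalised positive definite class functions
`φ` on `G`.  The extreme ones which are conditionally finite-dimensional (the second alternative of
the dichotomy of the problem) are characterised by the rate of the almost periods `n ≤ 2 ^ N` of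
`n ↦ φ (u ^ n)`, `u` the translation by `1`: any rate `N ^ (-κ)`, `κ > 0`, is enough.
-/

set_option autoImplicit false

open Filter
open scoped ComplexOrder

namespace Pool.Agent.Results.MP_81910f_an.ExtremeTraces

/-- **Almost periods of the extreme tracial states of `C*(ℤ² ⋉ ℤ[1/6])`.**
An extreme tracial state `φ` is conditionally finite-dimensional (its translates by the
translations span a finite-dimensional space) if and only if `φ (u ^ n) = 1` for some `n ≥ 1`, if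
and only if for some `κ > 0` and all large `N` some `1 ≤ n ≤ 2 ^ N` satisfies
`1 - Re φ (u ^ n) ≤ N ^ (-κ)`, if and only if `∑ N ^ (κ - 1) (1 - Re φ (u ^ n_N))` converges for
some `κ > 0` and some `1 ≤ n_N ≤ 2 ^ N`. -/
theorem result (s2 s3 t : Equiv.Perm ℚ) (h2 : ∀ x : ℚ, s2 x = 2 * x) (h3 : ∀ x : ℚ, s3 x = 3 * x)
    (ht : ∀ x : ℚ, t x = x + 1) (G : Subgroup (Equiv.Perm ℚ))
    (hG : G = Subgroup.closure {s2, s3, t}) (u : G)
    (hu : ∀ x : ℚ, (u : Equiv.Perm ℚ) x = x + 1) (φ : G → ℂ)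
    (hφ : φ ∈ Set.extremePoints ℝ {ψ : G → ℂ | ψ 1 = 1 ∧ (∀ g h : G, ψ (h * g * h⁻¹) = ψ g) ∧
      ∀ (s : Finset G) (c : G → ℂ), 0 ≤ ∑ i ∈ s, ∑ j ∈ s, star (c j) * c i * ψ (j⁻¹ * i)}) :
    List.TFAE [
      FiniteDimensional ℂ (Submodule.span ℂ {F : G → ℂ | ∃ n : G,
        (∃ r : ℚ, ∀ x : ℚ, (n : Equiv.Perm ℚ) x = x + r) ∧ F = fun x => φ (n * x)}),
      ∃ n : ℕ, 1 ≤ n ∧ φ (u ^ n) = 1,
      ∃ κ : ℝ, 0 < κ ∧ ∀ᶠ N : ℕ in atTop, ∃ n : ℕ, 1 ≤ n ∧ n ≤ 2 ^ N ∧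
        1 - (φ (u ^ n)).re ≤ (N : ℝ) ^ (-κ),
      ∃ κ : ℝ, 0 < κ ∧ ∃ n : ℕ → ℕ, (∀ N, 1 ≤ n N ∧ n N ≤ 2 ^ N) ∧ Summable (fun N : ℕ =>
        (N : ℝ) ^ (κ - 1) * (1 - (φ (u ^ n N)).re))] :=
  Pool.Agent.TH461.FGK.extreme s2 s3 t h2 h3 ht G hG u hu φ hφ

end Pool.Agent.Results.MP_81910f_an.ExtremeTraces
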