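import Mathlib
import Pool.Agent.TH461.FGK.Tr

/-!
# Growth of the tracial states of `C*(ℤ² ⋉ ℤ[1/6])`

Let `G` be the group generated by `x ↦ 2 x`, `x ↦ 3 x`, `x ↦ x + 1` on `ℚ`, a copy of
`ℤ² ⋉ ℤ[1/6]`.  The tracial states of `C*(G)` are the normalised positive definite class functions
`φ` on `G`.  For all of them `1 - Re φ (g ^ n) ≤ C (1 + log n) ^ κ (1 - Re φ (g))` for every
translation `g` and `n ≥ 1`, for every `κ > 0`, `C` depending only on `κ`.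
-/

set_option autoImplicit false

open scoped ComplexOrder

namespace Pool.Agent.Results.MP_81910f_an.TraceGrowth

/-- **Growth of the tracial states of `C*(ℤ² ⋉ ℤ[1/6])`.**
For every `κ > 0` there is a constant `C` such that for every tracial state
`φ` (extreme or not) `1 - Re φ (g ^ n) ≤ C (1 + log n) ^ κ (1 - Re φ (g))` for all translations
`g` and `n ≥ 1`. -/
theorem result (κ : ℝ) (hκ : 0 < κ) : ∃ C : ℝ, 0 < C ∧
    ∀ (s2 s3 t : Equiv.Perm ℚ), (∀ x : ℚ, s2 x = 2 * x) → (∀ x : ℚ, s3 x = 3 * x) →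
    (∀ x : ℚ, t x = x + 1) →
    ∀ (G : Subgroup (Equiv.Perm ℚ)), G = Subgroup.closure {s2, s3, t} →
    ∀ φ : G → ℂ, φ 1 = 1 → (∀ g h : G, φ (h * g * h⁻¹) = φ g) →
      (∀ (s : Finset G) (c : G → ℂ), 0 ≤ ∑ i ∈ s, ∑ j ∈ s, star (c j) * c i * φ (j⁻¹ * i)) →
      ∀ g : G, (∃ r : ℚ, ∀ x : ℚ, (g : Equiv.Perm ℚ) x = x + r) → ∀ n : ℕ, 1 ≤ n →
        1 - (φ (g ^ n)).re ≤ C * (1 + Real.log n) ^ κ * (1 - (φ g).re) :=
  Pool.Agent.TH461.FGK.traces hκ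

end Pool.Agent.Results.MP_81910f_an.TraceGrowth
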