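import Mathlib
import Pool.Agent.TH463.UQ.Trace

/-!
# A universal set of multipliers for the extreme traces of `C*(ℤ² ⋉ ℤ[1/6])`

Let `G` be the group generated by `x ↦ 2 x`, `x ↦ 3 x`, `x ↦ x + 1` on `ℚ`, a copy of
`ℤ² ⋉ ℤ[1/6]`.  The tracial states of `C*(G)` are the normalised positive definite class functions
`φ` on `G`.
-/

set_option autoImplicit false

open Filter Topology
open scoped ComplexOrder

namespace Pool.Agent.Results.MP_81910f_an.UniversalMultipliers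

/-- **A universal set of multipliers for extreme traces.** For every `η > 0` there is one set `C` of
natural numbers, missing at most `η N` of the numbers below `N` for every `N`, such that every extreme
tracial state `φ` of `C*(G)`
* is conditionally finite-dimensional, or satisfies `φ (g ^ c) → 0` as `c → ∞` in `C` for every
  translation `g ≠ 1` of `G`;
* is the regular trace or conditionally finite-dimensional if `φ (g ^ c) = φ (g)` for all translations
  `g` of `G` and all `c` in some infinite subset `S` of `C`. -/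
theorem result (η : ℝ) (hη : 0 < η) : ∃ C : Set ℕ,
    (∀ N : ℕ, ((Nat.card {c : ℕ | c < N ∧ c ∉ C} : ℕ) : ℝ) ≤ η * N) ∧
    ∀ (s2 s3 t : Equiv.Perm ℚ), (∀ x : ℚ, s2 x = 2 * x) → (∀ x : ℚ, s3 x = 3 * x) →
    (∀ x : ℚ, t x = x + 1) →
    ∀ (G : Subgroup (Equiv.Perm ℚ)), G = Subgroup.closure {s2, s3, t} → ∀ φ : G → ℂ,
      φ ∈ Set.extremePoints ℝ {ψ : G → ℂ | ψ 1 = 1 ∧ (∀ g h : G, ψ (h * g * h⁻¹) = ψ g) ∧
        ∀ (s : Finset G) (c : G → ℂ), 0 ≤ ∑ i ∈ s, ∑ j ∈ s, star (c j) * c i * ψ (j⁻¹ * i)} →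
      (FiniteDimensional ℂ (Submodule.span ℂ {F : G → ℂ | ∃ n : G,
          (∃ r : ℚ, ∀ x : ℚ, (n : Equiv.Perm ℚ) x = x + r) ∧ F = fun x => φ (n * x)}) ∨
        ∀ g : G, g ≠ 1 → (∃ r : ℚ, ∀ x : ℚ, (g : Equiv.Perm ℚ) x = x + r) →
          Tendsto (fun c : ℕ => φ (g ^ c)) (atTop ⊓ 𝓟 C) (𝓝 0)) ∧
      ∀ S : Set ℕ, S ⊆ C → S.Infinite →
        (∀ c ∈ S, ∀ g : G, (∃ r : ℚ, ∀ x : ℚ, (g : Equiv.Perm ℚ) x = x + r) → φ (g ^ c) = φ g) →
        φ = Set.indicator ({1} : Set G) (fun _ => (1 : ℂ)) ∨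
          FiniteDimensional ℂ (Submodule.span ℂ {F : G → ℂ | ∃ n : G,
            (∃ r : ℚ, ∀ x : ℚ, (n : Equiv.Perm ℚ) x = x + r) ∧ F = fun x => φ (n * x)}) :=
  TH463.UQ.traces hη

end Pool.Agent.Results.MP_81910f_an.UniversalMultipliers
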